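import Pool.Agent.K1H32.CB.Rot

/-! # Extensions of odd degree, and the fields with 2 and 16 elements -/

set_option autoImplicit false

namespace Pool.Agent.K1H32.CB

variable {F : Type} [Field F] [CharP F 2]

lemma cancel_add {x y z : F} (h : x + y = z) : x = z + y := by
  rw [← h, add_assoc, self_add, add_zero]

lemma pow_add_one (a : ℕ) (u : F) : (u + 1) ^ 2 ^ a = u ^ 2 ^ a + 1 := by
  rw [add_pow_char_pow, one_pow]

lemma pow_add' (a : ℕ) (u v : F) : (u + v) ^ 2 ^ a = u ^ 2 ^ a + v ^ 2 ^ a := by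
  rw [add_pow_char_pow]

/-- `v² + v` in the field with `q` elements, in an extension of odd degree. -/
lemma cross (a m : ℕ) (hm : Odd m) (v : F) (hF : v ^ (2 ^ a) ^ m = v)
    (hv : (v * (v + 1)) ^ 2 ^ a = v * (v + 1)) : v ^ 2 ^ a = v := by
  rw [mul_pow, pow_add_one] at hv
  have h1 : (v ^ 2 ^ a + v) * (v ^ 2 ^ a + v + 1) = 0 := by
    have h2 : v ^ 2 ^ a * (v ^ 2 ^ a + 1) + v * (v + 1) = 0 := by rw [hv, self_add]
    have h3 := self_add (v ^ 2 ^ a * v)
    calc (v ^ 2 ^ a + v) * (v ^ 2 ^ a + v + 1)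
        = v ^ 2 ^ a * (v ^ 2 ^ a + 1) + v * (v + 1) + (v ^ 2 ^ a * v + v ^ 2 ^ a * v) := by ring
      _ = 0 := by rw [h2, h3, add_zero]
  rcases mul_eq_zero.1 h1 with h2 | h2
  · have := cancel_add h2
    rw [zero_add] at this; exact this
  · -- `f f v = v`
    have hw : v ^ 2 ^ a = v + 1 := by
      have := cancel_add h2
      rw [zero_add] at this
      have := cancel_add this
      rw [this, add_comm]
    let f : F → F := fun x => x ^ 2 ^ a
    have hff : f^[2] v = v := by
      show f (f v) = v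
      show (v ^ 2 ^ a) ^ 2 ^ a = v
      rw [hw, pow_add_one, hw, add_assoc, self_add, add_zero]
    obtain ⟨s, rfl⟩ := hm
    have h3 : f^[2 * s + 1] v = f v := by
      rw [Function.iterate_succ_apply', Function.iterate_mul]
      congr 1
      exact Function.iterate_fixed hff s
    have h4 : f^[2 * s + 1] v = v ^ (2 ^ a) ^ (2 * s + 1) := by
      rw [show f = (fun x : F => x ^ 2 ^ a) from rfl, pow_iterate]
    rw [h4, hF] at h3
    exact h3.symm

open Classical in
/-- the extension of an adder on the subfield with `2 ^ a` elements -/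
noncomputable def extend (a : ℕ) (h₀ : F → F) (u : F) : F :=
  if u ^ 2 ^ a = u then h₀ u else u * (u + 1)

theorem isAdder_extend (a m : ℕ) (hm : Odd m) (hF : ∀ v : F, v ^ (2 ^ a) ^ m = v) (h₀ : F → F)
    (hK : ∀ u, u ^ 2 ^ a = u → (h₀ u) ^ 2 ^ a = h₀ u ∧ h₀ u ≠ 0 ∧ h₀ (u + 1) = h₀ u)
    (hi : ∀ u v, u ^ 2 ^ a = u → v ^ 2 ^ a = v → h₀ u = h₀ v → v = u ∨ v = u + 1)
    (hc : ∀ u v, u ^ 2 ^ a = u → v ^ 2 ^ a = v → u ≠ 0 → v ≠ 0 → h₀ u * v = h₀ v * u → u = v) :
    IsAdder (extend a h₀) := by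
  have h0 : ∀ u : F, ¬ u ^ 2 ^ a = u → u ≠ 0 := by
    rintro u hu rfl; exact hu (by simp)
  have h1 : ∀ u : F, ¬ u ^ 2 ^ a = u → u + 1 ≠ 0 := by
    intro u hu h
    have := cancel_add h
    rw [zero_add] at this
    exact hu (by rw [this, one_pow])
  have hp : ∀ u : F, (u + 1) ^ 2 ^ a = u + 1 ↔ u ^ 2 ^ a = u := by
    intro u
    rw [pow_add_one]
    exact ⟨fun h => add_right_cancel h, fun h => by rw [h]⟩
  have hcr : ∀ u v : F, u ^ 2 ^ a = u → ¬ v ^ 2 ^ a = v → h₀ u ≠ v * (v + 1) := by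
    intro u v hu hv h
    apply hv
    apply cross a m hm v (hF v)
    rw [← h, (hK u hu).1]
  have hcr2 : ∀ u v : F, u ^ 2 ^ a = u → ¬ v ^ 2 ^ a = v → u ≠ 0 →
      h₀ u * v ≠ v * (v + 1) * u := by
    intro u v hu hv hu0 h
    have h2 : h₀ u = (v + 1) * u := by
      apply mul_right_cancel₀ (h0 v hv)
      rw [h]; ring
    have h3 : v + 1 = h₀ u / u := by rw [h2, mul_div_cancel_right₀ _ hu0]
    apply hv
    rw [← hp, h3, div_pow, (hK u hu).1, hu]
  refine ⟨fun u => ?_, fun u => ?_, fun u v huv => ?_, fun u v hu0 hv0 huv => ?_⟩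
  · unfold extend
    split_ifs with h
    · exact (hK u h).2.1
    · exact mul_ne_zero (h0 u h) (h1 u h)
  · unfold extend
    by_cases h : u ^ 2 ^ a = u
    · rw [if_pos h, if_pos ((hp u).2 h)]
      exact (hK u h).2.2
    · rw [if_neg h, if_neg (fun h' => h ((hp u).1 h'))]
      rw [add_assoc, self_add, add_zero, mul_comm]
  · unfold extend at huv
    by_cases hu : u ^ 2 ^ a = u <;> by_cases hv : v ^ 2 ^ a = v
    · rw [if_pos hu, if_pos hv] at huv
      exact hi u v hu hv huv
    · rw [if_pos hu, if_neg hv] at huv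
      exact absurd huv (hcr u v hu hv)
    · rw [if_neg hu, if_pos hv] at huv
      exact absurd huv.symm (hcr v u hv hu)
    · rw [if_neg hu, if_neg hv] at huv
      have h2 : (v + u) * (v + u + 1) = 0 := by
        have h3 : u * (u + 1) + v * (v + 1) = 0 := by rw [huv, self_add]
        have h4 := self_add (u * v)
        calc (v + u) * (v + u + 1) = u * (u + 1) + v * (v + 1) + (u * v + u * v) := by ring
          _ = 0 := by rw [h3, h4, add_zero]
      rcases mul_eq_zero.1 h2 with h3 | h3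
      · left
        have := cancel_add h3
        rw [zero_add] at this; exact this
      · right
        have := cancel_add h3
        rw [zero_add] at this
        have := cancel_add this
        rw [this, add_comm]
  · unfold extend at huv
    by_cases hu : u ^ 2 ^ a = u <;> by_cases hv : v ^ 2 ^ a = v
    · rw [if_pos hu, if_pos hv] at huv
      exact hc u v hu hv hu0 hv0 huv
    · rw [if_pos hu, if_neg hv] at huv
      exact absurd huv (hcr2 u v hu hv hu0)
    · rw [if_neg hu, if_pos hv] at huv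
      exact absurd huv.symm (hcr2 v u hv hu hv0)
    · rw [if_neg hu, if_neg hv] at huv
      have h2 : (u + 1) * (u * v) = (v + 1) * (u * v) := by
        calc (u + 1) * (u * v) = u * (u + 1) * v := by ring
          _ = v * (v + 1) * u := huv
          _ = _ := by ring
      exact add_right_cancel (mul_right_cancel₀ (mul_ne_zero hu0 hv0) h2)

/-- the subfield with two elements -/
theorem isAdder_two (m : ℕ) (hm : Odd m) (hF : ∀ v : F, v ^ 2 ^ m = v) : ∃ h : F → F, IsAdder h := by
  have hu : ∀ u : F, u ^ 2 ^ 1 = u → u = 0 ∨ u = 1 := by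
    intro u h
    rw [pow_one] at h
    have h2 : u * (u + 1) = 0 := by
      calc u * (u + 1) = u ^ 2 + u := by ring
        _ = 0 := by rw [h, self_add]
    rcases mul_eq_zero.1 h2 with h3 | h3
    · exact Or.inl h3
    · right
      have := cancel_add h3
      rw [zero_add] at this; exact this
  refine ⟨extend 1 fun _ => 1, isAdder_extend 1 m hm (by simpa using hF) _ ?_ ?_ ?_⟩
  · intro u _; simp
  · intro u v h1 h2 _
    rcases hu u h1 with rfl | rfl <;> rcases hu v h2 with rfl | rfl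
    · exact Or.inl rfl
    · right; simp
    · right; rw [self_add]
    · exact Or.inl rfl
  · intro u v h1 h2 h3 h4 _
    rcases hu u h1 with rfl | rfl <;> rcases hu v h2 with rfl | rfl
    · rfl
    · exact absurd rfl h3
    · exact absurd rfl h4
    · rfl

/-! ### the subfield with 16 elements -/

/-- logarithms of `1 + α ^ i` for `α ^ 4 = α + 1` -/
def Z : ℕ → ℕ := fun i => [0, 4, 8, 14, 1, 10, 13, 9, 2, 7, 5, 12, 11, 6, 3].getD i 0

/-- the logarithms of the adder -/
def L : ℕ → ℕ := fun i => [0, 2, 7, 11, 2, 12, 9, 13, 7, 13, 12, 6, 6, 9, 11].getD i 0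

lemma L_lt : ∀ i < 15, L i < 15 := by decide

lemma L_Z : ∀ i < 15, i ≠ 0 → L (Z i) = L i ∧ Z i < 15 ∧ Z i ≠ 0 := by decide

lemma L_inj : ∀ i < 15, ∀ j < 15, L i = L j → j = i ∨ (i ≠ 0 ∧ j = Z i) := by decide

lemma L_col : ∀ i < 15, ∀ j < 15, (L i + j) % 15 = (L j + i) % 15 → i = j := by decide

lemma zech (α : F) (h : α ^ 4 = α + 1) : ∀ i < 15, i ≠ 0 → α ^ i + 1 = α ^ Z i := by
  have h2 : (2 : F) = 0 := CharTwo.two_eq_zero
  have e5 : α ^ 5 = α ^ 2 + α := by linear_combination α * h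
  have e6 : α ^ 6 = α ^ 3 + α ^ 2 := by linear_combination α ^ 2 * h
  have e7 : α ^ 7 = α ^ 3 + α + 1 := by linear_combination α ^ 3 * h + h
  have e8 : α ^ 8 = α ^ 2 + 1 := by linear_combination α ^ 4 * h + α * h + h + α * h2
  have e9 : α ^ 9 = α ^ 3 + α := by linear_combination α * e8
  have e10 : α ^ 10 = α ^ 2 + α + 1 := by linear_combination α * e9 + h
  have e11 : α ^ 11 = α ^ 3 + α ^ 2 + α := by linear_combination α * e10
  have e12 : α ^ 12 = α ^ 3 + α ^ 2 + α + 1 := by linear_combination α * e11 + h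
  have e13 : α ^ 13 = α ^ 3 + α ^ 2 + 1 := by linear_combination α * e12 + h + α * h2
  have e14 : α ^ 14 = α ^ 3 + 1 := by linear_combination α * e13 + h + α * h2
  intro i hi h0
  interval_cases i
  · exact absurd rfl h0
  all_goals simp only [Z, List.getD_cons_succ, List.getD_cons_zero]
  · linear_combination -h
  · linear_combination -e8
  · linear_combination -e14
  · linear_combination h + h2
  · linear_combination e5 - e10
  · linear_combination e6 - e13
  · linear_combination e7 - e9 + h2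
  · linear_combination e8 + h2
  · linear_combination e9 - e7
  · linear_combination e10 - e5 + h2
  · linear_combination e11 - e12
  · linear_combination e12 - e11 + h2
  · linear_combination e13 - e6 + h2
  · linear_combination e14 + h2

open Classical in
/-- logarithm with the base `α`, and `0` if there is none -/
noncomputable def lg (α u : F) : ℕ := if h : ∃ i, i < 15 ∧ α ^ i = u then Classical.choose h else 0

lemma lg_pow (α : F) (hα : IsPrimitiveRoot α 15) (i : ℕ) (hi : i < 15) : lg α (α ^ i) = i := by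
  unfold lg
  have h : ∃ j, j < 15 ∧ α ^ j = α ^ i := ⟨i, hi, rfl⟩
  rw [dif_pos h]
  obtain ⟨h1, h2⟩ := Classical.choose_spec h
  exact hα.pow_inj h1 hi h2

lemma lg_zero (α : F) (hα : α ≠ 0) : lg α 0 = 0 := by
  unfold lg
  rw [dif_neg]
  rintro ⟨i, -, hi⟩
  exact pow_ne_zero i hα hi

theorem isAdder_sixteen (α : F) (hα : IsPrimitiveRoot α 15) (h4 : α ^ 4 = α + 1) (m : ℕ) (hm : Odd m)
    (hF : ∀ v : F, v ^ 16 ^ m = v) : ∃ h : F → F, IsAdder h := by
  have hα0 : α ≠ 0 := hα.ne_zero (by norm_num)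
  have h15 : α ^ 15 = 1 := hα.pow_eq_one
  have hcase : ∀ u : F, u ^ 2 ^ 4 = u → u = 0 ∨ ∃ i, i < 15 ∧ u = α ^ i := by
    intro u hu
    by_cases h0 : u = 0
    · exact Or.inl h0
    right
    have h1 : u ^ 15 = 1 := by
      apply mul_right_cancel₀ h0
      rw [one_mul, ← pow_succ]; exact hu
    obtain ⟨i, hi, h⟩ := hα.eq_pow_of_pow_eq_one h1
    exact ⟨i, hi, h.symm⟩
  have hl0 := lg_zero α hα0
  have hlp := lg_pow α hα
  have hL0 : L 0 = 0 := rfl
  have hone : ∀ i, i < 15 → α ^ i = 1 → i = 0 := by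
    intro i hi h
    exact hα.pow_inj hi (by norm_num) (by rw [h, pow_zero])
  refine ⟨extend 4 fun u => α ^ L (lg α u), isAdder_extend 4 m hm (by simpa using hF) _ ?_ ?_ ?_⟩
  · intro u hu
    refine ⟨?_, pow_ne_zero _ hα0, ?_⟩
    · show (α ^ L (lg α u)) ^ 2 ^ 4 = α ^ L (lg α u)
      rw [← pow_mul, mul_comm, pow_mul, show α ^ 2 ^ 4 = α by
        rw [show (2 : ℕ) ^ 4 = 15 + 1 by norm_num, pow_succ, h15, one_mul]]
    · show α ^ L (lg α (u + 1)) = α ^ L (lg α u)
      rcases hcase u hu with rfl | ⟨i, hi, rfl⟩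
      · rw [zero_add, hl0, show (1 : F) = α ^ 0 by simp, hlp 0 (by norm_num)]
      · by_cases h0 : i = 0
        · subst h0
          rw [hlp 0 hi, pow_zero, self_add, hl0]
        · obtain ⟨h1, h2, -⟩ := L_Z i hi h0
          rw [zech α h4 i hi h0, hlp i hi, hlp _ h2, h1]
  · intro u v hu hv huv
    change α ^ L (lg α u) = α ^ L (lg α v) at huv
    rcases hcase u hu with rfl | ⟨i, hi, rfl⟩ <;> rcases hcase v hv with rfl | ⟨j, hj, rfl⟩
    · exact Or.inl rfl
    · rw [hl0, hlp j hj] at huv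
      rcases L_inj 0 (by norm_num) j hj (hα.pow_inj (L_lt 0 (by norm_num)) (L_lt j hj) huv) with h | h
      · subst h; right; simp
      · exact absurd rfl h.1
    · rw [hl0, hlp i hi] at huv
      rcases L_inj i hi 0 (by norm_num) (hα.pow_inj (L_lt i hi) (L_lt 0 (by norm_num)) huv) with h | h
      · subst h; right; rw [pow_zero, self_add]
      · exact absurd h.2.symm (L_Z i hi h.1).2.2
    · rw [hlp j hj, hlp i hi] at huv
      rcases L_inj i hi j hj (hα.pow_inj (L_lt i hi) (L_lt j hj) huv) with h | h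
      · subst h; left; rfl
      · right; rw [h.2, zech α h4 i hi h.1]
  · intro u v hu hv hu0 hv0 huv
    change α ^ L (lg α u) * v = α ^ L (lg α v) * u at huv
    rcases hcase u hu with rfl | ⟨i, hi, rfl⟩
    · exact absurd rfl hu0
    rcases hcase v hv with rfl | ⟨j, hj, rfl⟩
    · exact absurd rfl hv0
    rw [hlp j hj, hlp i hi, ← pow_add, ← pow_add] at huv
    have hmod : ∀ n : ℕ, α ^ n = α ^ (n % 15) := by
      intro n
      conv_lhs => rw [← Nat.div_add_mod n 15, pow_add, pow_mul, h15, one_pow, one_mul]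
    rw [hmod (L i + j), hmod (L j + i)] at huv
    rw [L_col i hi j hj (hα.pow_inj (Nat.mod_lt _ (by norm_num)) (Nat.mod_lt _ (by norm_num)) huv)]

end Pool.Agent.K1H32.CB
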