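import Pool.Agent.K1H32.CB.Ext

/-! # Complete balanced Howell rotations on `2 ^ k` partnerships -/

set_option autoImplicit false

namespace Pool.Agent.K1H32.CB

/-- an element of order 15 with `α ^ 4 = α + 1` -/
lemma exists_alpha (F : Type) [Field F] [CharP F 2] [Fintype F] (h : 15 ∣ Fintype.card F - 1) :
    ∃ α : F, IsPrimitiveRoot α 15 ∧ α ^ 4 = α + 1 := by
  classical
  have h1 : ∃ x : Fˣ, orderOf x = 15 := by
    have h2 : 15 ∣ Fintype.card Fˣ := by rw [Fintype.card_units]; exact h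
    have h3 := IsCyclic.card_orderOf_eq_totient (α := Fˣ) (d := 15) h2
    by_contra hne
    push Not at hne
    have h4 : (Finset.univ.filter fun a : Fˣ => orderOf a = 15) = ∅ := by
      apply Finset.filter_false_of_mem
      intro x _; exact hne x
    rw [h4, Finset.card_empty] at h3
    have h5 : Nat.totient 15 = 8 := by decide
    omega
  obtain ⟨x, hx⟩ := h1
  have hp : IsPrimitiveRoot (x : F) 15 := by
    rw [IsPrimitiveRoot.coe_units_iff, ← hx]
    exact IsPrimitiveRoot.orderOf x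
  set y : F := (x : F) with hy
  have h15 : y ^ 15 = 1 := hp.pow_eq_one
  have h5 : y ^ 5 ≠ 1 := fun h => by
    have := hp.dvd_of_pow_eq_one 5 h
    revert this; decide
  have h3 : y ^ 3 ≠ 1 := fun h => by
    have := hp.dvd_of_pow_eq_one 3 h
    revert this; decide
  have h2 : (2 : F) = 0 := CharTwo.two_eq_zero
  have a1 : y ^ 10 + y ^ 5 + 1 = 0 := by
    have : (y ^ 5 - 1) * (y ^ 10 + y ^ 5 + 1) = 0 := by linear_combination h15
    exact (mul_eq_zero.1 this).resolve_left (sub_ne_zero.2 h5)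
  have a2 : y ^ 8 + y ^ 7 + y ^ 5 + y ^ 4 + y ^ 3 + y + 1 = 0 := by
    have h0 : y ^ 2 + y + 1 ≠ 0 := fun h => h3 (by linear_combination (y - 1) * h)
    have : (y ^ 2 + y + 1) * (y ^ 8 + y ^ 7 + y ^ 5 + y ^ 4 + y ^ 3 + y + 1) = 0 := by
      linear_combination a1 + (y ^ 9 + y ^ 8 + y ^ 7 + y ^ 6 + y ^ 5 + y ^ 4 + y ^ 3 + y ^ 2 + y) * h2
    exact (mul_eq_zero.1 this).resolve_left h0
  have a3 : (y ^ 4 + y + 1) * (y ^ 4 + y ^ 3 + 1) = 0 := by
    linear_combination a2 + (y ^ 4) * h2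
  rcases mul_eq_zero.1 a3 with h4 | h4
  · refine ⟨y, hp, ?_⟩
    linear_combination h4 - (y + 1) * h2
  · refine ⟨y⁻¹, hp.inv, ?_⟩
    have hy0 : y ≠ 0 := hp.ne_zero (by norm_num)
    have : y ^ 4 * ((y⁻¹) ^ 4 - (y⁻¹ + 1)) = 0 := by
      have h6 : y ^ 4 * (y⁻¹) ^ 4 = 1 := by rw [← mul_pow, mul_inv_cancel₀ hy0, one_pow]
      have h7 : y ^ 4 * y⁻¹ = y ^ 3 := by
        rw [pow_succ, mul_assoc, mul_inv_cancel₀ hy0, mul_one]
      linear_combination h6 - h7 - h4 + h2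
    rcases mul_eq_zero.1 this with h8 | h8
    · exact absurd h8 (pow_ne_zero 4 hy0)
    · exact sub_eq_zero.1 h8

lemma exists_trace (k : ℕ) : ∃ (t : GaloisField 2 k →+ ZMod 2) (c : GaloisField 2 k),
    t c = 1 := by
  haveI : Fact (Nat.Prime 2) := ⟨Nat.prime_two⟩
  obtain ⟨c, hc⟩ := Algebra.trace_surjective (ZMod 2) (GaloisField 2 k) 1
  exact ⟨(Algebra.trace (ZMod 2) (GaloisField 2 k)).toAddMonoidHom, c, hc⟩

theorem cbhr_of_adder (k : ℕ) (hk : k ≠ 0) (h : ∃ h : GaloisField 2 k → GaloisField 2 k, IsAdder h) :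
    ∃ R S, IsCBHR (2 ^ k) R S := by
  haveI : Fact (Nat.Prime 2) := ⟨Nat.prime_two⟩
  classical
  haveI : Fintype (GaloisField 2 k) := Fintype.ofFinite _
  obtain ⟨t, c, hc⟩ := exists_trace k
  obtain ⟨h, hh⟩ := h
  refine exists_cbhr t c hc h hh (2 ^ k) ?_
  rw [← Nat.card_eq_fintype_card, GaloisField.card 2 k hk]

lemma pow_card (k : ℕ) (hk : k ≠ 0) (v : GaloisField 2 k) : v ^ 2 ^ k = v := by
  haveI : Fact (Nat.Prime 2) := ⟨Nat.prime_two⟩
  haveI : Fintype (GaloisField 2 k) := Fintype.ofFinite _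
  have h1 := FiniteField.pow_card v
  rwa [← Nat.card_eq_fintype_card, GaloisField.card 2 k hk] at h1

theorem cbhr_odd (k : ℕ) (hk : Odd k) : ∃ R S, IsCBHR (2 ^ k) R S := by
  haveI : Fact (Nat.Prime 2) := ⟨Nat.prime_two⟩
  have hk0 : k ≠ 0 := by rintro rfl; exact absurd hk (by decide)
  exact cbhr_of_adder k hk0 (isAdder_two k hk (pow_card k hk0))

theorem cbhr_four (m : ℕ) (hm : Odd m) : ∃ R S, IsCBHR (2 ^ (4 * m)) R S := by
  haveI : Fact (Nat.Prime 2) := ⟨Nat.prime_two⟩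
  have hk0 : 4 * m ≠ 0 := by
    rintro h
    have : m = 0 := by omega
    subst this; exact absurd hm (by decide)
  haveI : Fintype (GaloisField 2 (4 * m)) := Fintype.ofFinite _
  obtain ⟨α, h1, h2⟩ := exists_alpha (GaloisField 2 (4 * m)) (by
    rw [← Nat.card_eq_fintype_card, GaloisField.card 2 _ hk0, pow_mul]
    have := Nat.sub_dvd_pow_sub_pow (2 ^ 4) 1 m
    simpa using this)
  refine cbhr_of_adder (4 * m) hk0 (isAdder_sixteen α h1 h2 m hm fun v => ?_)
  have := pow_card (4 * m) hk0 v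
  rwa [pow_mul] at this

lemma odd_geom (p : ℤ) (hp : Odd p) (m : ℕ) : Odd (∑ i ∈ Finset.range m, p ^ i) ↔ Odd m := by
  induction m with
  | zero => simp
  | succ m ih =>
    rw [Finset.sum_range_succ, Int.odd_add, ih, Nat.odd_add_one]
    have h1 : Odd (p ^ m) := hp.pow
    have h2 : ¬ Even (p ^ m) := Int.not_even_iff_odd.2 h1
    tauto

/-- `2 ^ k - 1` is never a proper power of a prime. -/
theorem not_isPrimePow (k : ℕ) (hk : 2 ≤ k) (h : ¬ k.Prime) : ¬ IsPrimePow (2 ^ k - 1) := by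
  have hnp : ¬ (2 ^ k - 1).Prime := fun hp =>
    h (Nat.prime_of_pow_sub_one_prime (by omega) hp).2
  rw [isPrimePow_nat_iff]
  rintro ⟨p, m, hp, hm, he⟩
  have h4 : 4 ∣ 2 ^ k := ⟨2 ^ (k - 2), by
    rw [show (4 : ℕ) = 2 ^ 2 by norm_num, ← pow_add]; congr 1; omega⟩
  have hpos : 0 < 2 ^ k := by positivity
  have he' : p ^ m + 1 = 2 ^ k := by omega
  have hp2 : p ≠ 2 := by
    rintro rfl
    have : 2 ∣ 2 ^ m := dvd_pow_self 2 (by omega)
    omega
  have hodd : Odd p := hp.odd_of_ne_two hp2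
  have hm1 : m ≠ 1 := by
    rintro rfl
    rw [pow_one] at he
    exact hnp (he ▸ hp)
  have hmo : Odd m := by
    by_contra hme
    rw [Nat.not_odd_iff_even] at hme
    obtain ⟨s, rfl⟩ := hme
    have h5 : Odd (p ^ s) := hodd.pow
    obtain ⟨t, ht⟩ := h5
    have h6 : p ^ (s + s) = 4 * (t * t + t) + 1 := by rw [pow_add, ht]; ring
    omega
  -- the cofactor is odd
  set T : ℤ := ∑ i ∈ Finset.range m, (-(p : ℤ)) ^ i with hS
  have h7 : (p + 1 : ℤ) * T = p ^ m + 1 := by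
    have h8 := mul_geom_sum (-(p : ℤ)) m
    rw [← hS, hmo.neg_pow] at h8
    linear_combination -h8
  have h9 : Odd T := by
    rw [hS, odd_geom _ (Odd.neg (by exact_mod_cast hodd))]
    exact hmo
  have h10 : T ∣ (2 : ℤ) ^ k := ⟨p + 1, by
    rw [mul_comm, h7]
    have : ((p ^ m + 1 : ℕ) : ℤ) = ((2 ^ k : ℕ) : ℤ) := by rw [he']
    push_cast at this
    exact this.symm⟩
  have h11 : IsUnit T := by
    have hc : IsCoprime T ((2 : ℤ) ^ k) := by
      apply IsCoprime.pow_right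
      obtain ⟨t, ht⟩ := h9
      exact ⟨1, -t, by rw [ht]; ring⟩
    exact hc.isUnit_of_dvd' dvd_rfl h10
  have hp3 : 3 ≤ p := by
    have := hp.two_le
    omega
  have hm2 : 2 ≤ m := by omega
  have h12 : (p : ℤ) ^ 2 ≤ (p : ℤ) ^ m := pow_le_pow_right₀ (by exact_mod_cast (by omega : 1 ≤ p)) hm2
  have hp3' : (3 : ℤ) ≤ p := by exact_mod_cast hp3
  rcases Int.isUnit_iff.1 h11 with h13 | h13
  · rw [h13] at h7; nlinarith
  · rw [h13] at h7; nlinarith

end Pool.Agent.K1H32.CB
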