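import Pool.Agent.K1H32.CB.Main

/-! # Quadratic extensions -/

set_option autoImplicit false

namespace Pool.Agent.K1H32.CB

/-- Adders given by the squares of their values. -/
structure IsAdderSq {F : Type} [Field F] (g : F → F) : Prop where
  ne : ∀ u, g u ≠ 0
  per : ∀ u, g (u + 1) = g u
  inj : ∀ u v, g u = g v → v = u ∨ v = u + 1
  col : ∀ u v, u ≠ 0 → v ≠ 0 → g u * v ^ 2 = g v * u ^ 2 → u = v

theorem exists_adder_of_sq {F : Type} [Field F] [Fintype F] [CharP F 2] (g : F → F) (hg : IsAdderSq g) :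
    ∃ h : F → F, IsAdder h := by
  have hs : Function.Surjective (fun x : F => x ^ 2) := by
    apply Finite.surjective_of_injective
    intro x y h
    have h1 : (x + y) ^ 2 = 0 := by
      rw [CharTwo.add_sq]; simp only at h; rw [h, self_add]
    have h2 := pow_eq_zero_iff (two_ne_zero) |>.1 h1
    have := cancel_add h2
    rw [zero_add] at this; exact this
  have hinj : ∀ x y : F, x ^ 2 = y ^ 2 → x = y := by
    intro x y h
    exact (Finite.injective_iff_surjective.2 hs) h
  choose s hs using hs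
  simp only at hs
  refine ⟨fun u => s (g u), ⟨fun u h => hg.ne u ?_, fun u => ?_, fun u v h => hg.inj u v ?_,
    fun u v hu hv h => hg.col u v hu hv ?_⟩⟩
  · rw [← hs (g u), h]; ring
  · show s (g (u + 1)) = s (g u)
    rw [hg.per]
  · rw [← hs (g u), ← hs (g v), h]
  · rw [← hs (g u), ← hs (g v), ← mul_pow, ← mul_pow, h]

section
variable {E F : Type} [Field E] [Field F] [Fintype E] [Fintype F] [CharP E 2] [CharP F 2] [Algebra E F]

/-- the data for the quadratic extension -/
structure Data (E : Type) [Field E] where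
  τ : E →+ ZMod 2
  sq : ∀ x, τ (x ^ 2) = τ x
  δ : E
  hδ : τ δ = 1
  d : E
  d0 : d ≠ 0
  d1 : d ≠ 1
  hd : τ (1 + d) = 1
  hd' : τ (1 + d⁻¹) = 1
  l : E →+ ZMod 2
  l1 : l 1 = 1
  ld : l d = 0
  ld' : l d⁻¹ = 0

open Classical in
/-- the sum of the pair of `a` -/
noncomputable def Data.D (X : Data E) (a : E) : E := if X.l a = 0 then X.d else X.d⁻¹

omit [Fintype E] [CharP E 2] in
lemma Data.l_D (X : Data E) (a : E) : X.l (X.D a) = 0 := by
  unfold Data.D; split_ifs
  · exact X.ld
  · exact X.ld'

omit [Fintype E] [CharP E 2] in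
lemma Data.D_ne (X : Data E) (a : E) : X.D a ≠ 0 := by
  unfold Data.D; split_ifs
  · exact X.d0
  · exact inv_ne_zero X.d0

omit [Fintype E] [CharP E 2] in
lemma Data.D_ne_one (X : Data E) (a : E) : X.D a ≠ 1 := by
  unfold Data.D; split_ifs
  · exact X.d1
  · intro h; exact X.d1 (inv_eq_one.1 h)

omit [Fintype E] [CharP E 2] in
lemma Data.τ_D (X : Data E) (a : E) : X.τ (1 + (X.D a)⁻¹) = 1 := by
  unfold Data.D; split_ifs
  · exact X.hd'
  · rw [inv_inv]; exact X.hd

omit [Fintype E] [CharP E 2] in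
lemma Data.D_add (X : Data E) (a b : E) (h : X.l b = 0) : X.D (a + b) = X.D a := by
  unfold Data.D; rw [map_add, h, add_zero]

/-- the coordinate of the element of `W` which belongs to `a` -/
noncomputable def Data.C (X : Data E) (a : E) : E := (a ^ 2 + (1 + X.D a) * a + X.δ) / X.D a

omit [Fintype E] in
lemma Data.no_root (X : Data E) (x : E) : x ^ 2 + x ≠ X.δ := by
  intro h
  have h1 := X.hδ
  rw [← h, map_add, X.sq] at h1
  have h2 : X.τ x + X.τ x = 0 := CharTwo.add_self_eq_zero _
  rw [h2] at h1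
  exact absurd h1 (by decide)

omit [Fintype E] in
lemma Data.C_partner (X : Data E) (a : E) : X.C (a + X.D a) = X.C a + 1 := by
  have hD : X.D (a + X.D a) = X.D a := X.D_add a _ (X.l_D a)
  unfold Data.C
  rw [hD, div_add_one (X.D_ne a)]
  congr 1
  have h2 : (2 : E) = 0 := CharTwo.two_eq_zero
  linear_combination (a * X.D a + X.D a ^ 2) * h2

omit [Fintype E] in
lemma Data.C_inj (X : Data E) : Function.Injective X.C := by
  intro a a' h
  have h2 : (2 : E) = 0 := CharTwo.two_eq_zero
  have hd0 := X.d0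
  unfold Data.C at h
  by_cases hl : X.l a = X.l a'
  · have hD : X.D a = X.D a' := by unfold Data.D; rw [hl]
    rw [← hD] at h
    have h3 := (div_left_inj' (X.D_ne a)).1 h
    have h4 : (a + a') * (a + a' + (1 + X.D a)) = 0 := by
      linear_combination h3 + (a' ^ 2 + a * a' + (1 + X.D a) * a') * h2
    rcases mul_eq_zero.1 h4 with h5 | h5
    · have := cancel_add h5
      rw [zero_add] at this; exact this
    · exfalso
      have h6 := cancel_add h5
      rw [zero_add] at h6
      have h7 : X.l (a + a') = 0 := by rw [map_add, hl]; exact CharTwo.add_self_eq_zero _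
      rw [h6, map_add, X.l_D, X.l1, add_zero] at h7
      exact absurd h7 (by decide)
  · exfalso
    -- one is in each half
    have key : ∀ x y : E, X.l x = 0 → X.l y ≠ 0 →
        (x ^ 2 + (1 + X.D x) * x + X.δ) / X.D x ≠ (y ^ 2 + (1 + X.D y) * y + X.δ) / X.D y := by
      intro x y hx hy h
      have e1 : X.D x = X.d := by unfold Data.D; rw [if_pos hx]
      have e2 : X.D y = X.d⁻¹ := by unfold Data.D; rw [if_neg hy]
      rw [e1, e2, div_inv_eq_mul, div_eq_iff hd0] at h
      have h3 : x ^ 2 + (1 + X.d) * x + X.δ = (X.d ^ 2 * y ^ 2 + X.d * (X.d + 1) * y + X.δ * X.d ^ 2) := by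
        rw [h]
        field_simp
      have hd1 : 1 + X.d ≠ 0 := by
        intro h4
        have h5 := cancel_add h4
        rw [zero_add] at h5
        exact X.d1 h5.symm
      apply X.no_root ((x + X.d * y) / (1 + X.d))
      have h6 : (x + X.d * y) ^ 2 + (1 + X.d) * (x + X.d * y) = X.δ * (1 + X.d) ^ 2 := by
        linear_combination h3 + (X.d * x * y + X.d ^ 2 * y ^ 2 + X.d * (1 + X.d) * y - X.δ - X.δ * X.d) * h2
      rw [div_pow, div_add_div _ _ (pow_ne_zero 2 hd1) hd1, div_eq_iff (mul_ne_zero (pow_ne_zero 2 hd1) hd1)]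
      linear_combination (1 + X.d) * h6
    have h01 : ∀ z : ZMod 2, z = 0 ∨ z = 1 := by decide
    rcases h01 (X.l a) with ha | ha <;> rcases h01 (X.l a') with ha' | ha'
    · exact hl (ha.trans ha'.symm)
    · exact key a a' ha (by rw [ha']; decide) h
    · exact key a' a ha' (by rw [ha]; decide) h.symm
    · exact hl (ha.trans ha'.symm)

end

end Pool.Agent.K1H32.CB
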