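import Pool.Agent.K1H32.CB.Quad

/-! # Quadratic extensions: the adder -/

set_option autoImplicit false

namespace Pool.Agent.K1H32.CB

variable {E F : Type} [Field E] [Field F] [Fintype E] [Fintype F] [CharP E 2] [CharP F 2] [Algebra E F]

omit [Fintype E] [Fintype F] [CharP E 2] in
lemma sq_inj (x y : F) (h : x ^ 2 = y ^ 2) : x = y := by
  have h1 : (x + y) ^ 2 = 0 := by
    rw [CharTwo.add_sq, h, self_add]
  have h2 := pow_eq_zero_iff (two_ne_zero) |>.1 h1
  have := cancel_add h2
  rw [zero_add] at this; exact this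

theorem quad (X : Data E) (h₀ : E → E) (hh : IsAdder h₀) (θ : F)
    (hθ : θ ^ 2 + θ = algebraMap E F X.δ)
    (hrep : ∀ v : F, ∃ a b : E, v = algebraMap E F a + algebraMap E F b * θ)
    (huniq : ∀ a b a' b' : E, algebraMap E F a + algebraMap E F b * θ =
      algebraMap E F a' + algebraMap E F b' * θ → a = a' ∧ b = b') :
    ∃ h : F → F, IsAdder h := by
  classical
  set i := algebraMap E F with hi
  have h2 : (2 : F) = 0 := CharTwo.two_eq_zero
  have hδ : i X.δ = θ ^ 2 + θ := hθ.symm
  have h2E : (2 : E) = 0 := CharTwo.two_eq_zero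
  have hiinj : Function.Injective i := i.injective
  -- the inverse of `C`
  have hCs : Function.Surjective X.C := Finite.surjective_of_injective X.C_inj
  choose A hA using hCs
  have hAC : ∀ a, A (X.C a) = a := fun a => X.C_inj (hA _)
  choose ca cb hcab using hrep
  have hca : ∀ a b, ca (i a + i b * θ) = a := fun a b =>
    ((huniq _ _ _ _ (hcab (i a + i b * θ))).1).symm
  have hcb : ∀ a b, cb (i a + i b * θ) = b := fun a b =>
    ((huniq _ _ _ _ (hcab (i a + i b * θ))).2).symm
  let w : E → F := fun α => (i α + θ) * (i (α + X.D α) + θ) / i (X.D α)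
  have hiD : ∀ α, i (X.D α) ≠ 0 := fun α h => X.D_ne α (hiinj (by rw [h, map_zero]))
  have hDD : ∀ α, X.D (α + X.D α) = X.D α := fun α => X.D_add α _ (X.l_D α)
  have hcanc : ∀ α : E, α + X.D α + X.D α = α := fun α => by rw [add_assoc, self_add, add_zero]
  have hwsymm : ∀ α, w (α + X.D α) = w α := by
    intro α
    show (i (α + X.D α) + θ) * (i (α + X.D α + X.D (α + X.D α)) + θ) / i (X.D (α + X.D α)) = _
    rw [hDD, hcanc, mul_comm]
  -- coordinates of `w`
  have hw : ∀ α, w α = i ((α * (α + X.D α) + X.δ) / X.D α) + i (1 + (X.D α)⁻¹) * θ := by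
    intro α
    have hd := hiD α
    show (i α + θ) * (i (α + X.D α) + θ) / i (X.D α) = _
    rw [div_eq_iff hd]
    simp only [map_div₀, map_add, map_mul, map_one, map_inv₀, hδ]
    field_simp
    linear_combination (i α * θ - θ) * h2
  have hw2 : ∀ α, w α ^ 2 = i (((α * (α + X.D α) + X.δ) / X.D α) ^ 2 + (1 + (X.D α)⁻¹) ^ 2 * X.δ) +
      i ((1 + (X.D α)⁻¹) ^ 2) * θ := by
    intro α
    rw [hw α]
    generalize (α * (α + X.D α) + X.δ) / X.D α = p
    generalize 1 + (X.D α)⁻¹ = r
    simp only [map_add, map_mul, map_pow, hδ]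
    linear_combination (i p * i r * θ - i r ^ 2 * θ) * h2
  -- the element of `W`
  have hΦ : ∀ α, i (X.C α) + θ = (i α + θ) * (i (α + X.D α) + θ + 1) / i (X.D α) := by
    intro α
    have hd := hiD α
    rw [eq_div_iff hd]
    unfold Data.C
    simp only [map_div₀, map_add, map_mul, map_pow, map_one, hδ]
    field_simp
    linear_combination (-(i α * θ)) * h2
  have hθne : ∀ α : E, i α + θ ≠ 0 := by
    intro α h
    have := huniq α 1 0 0 (by rw [map_one, one_mul, map_zero, zero_mul, add_zero]; exact h)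
    exact one_ne_zero this.2
  have hθne1 : ∀ α : E, i α + θ + 1 ≠ 0 := by
    intro α h
    apply hθne (α + 1)
    rw [map_add, map_one, ← h]; ring
  -- the function
  let g : F → F := fun v => if cb v = 0 then i (h₀ (ca v) ^ 2) else
    if cb v = 1 then w (A (ca v)) ^ 2 else v ^ 2 + v
  have gK : ∀ a, g (i a) = i (h₀ a ^ 2) := by
    intro a
    have h1 : ca (i a) = a := by have := hca a 0; rwa [map_zero, zero_mul, add_zero] at this
    have h3 : cb (i a) = 0 := by have := hcb a 0; rwa [map_zero, zero_mul, add_zero] at this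
    show (if cb (i a) = 0 then _ else _) = _
    rw [if_pos h3, h1]
  have gW : ∀ α, g (i (X.C α) + θ) = w α ^ 2 := by
    intro α
    have h1 : ca (i (X.C α) + θ) = X.C α := by have := hca (X.C α) 1; rwa [map_one, one_mul] at this
    have h3 : cb (i (X.C α) + θ) = 1 := by have := hcb (X.C α) 1; rwa [map_one, one_mul] at this
    show (if cb (i (X.C α) + θ) = 0 then _ else _) = _
    rw [if_neg (by rw [h3]; exact one_ne_zero), if_pos h3, h1, hAC]
  have gG : ∀ a b, b ≠ 0 → b ≠ 1 → g (i a + i b * θ) = (i a + i b * θ) ^ 2 + (i a + i b * θ) := by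
    intro a b hb0 hb1
    have h3 : cb (i a + i b * θ) = b := hcb a b
    show (if cb (i a + i b * θ) = 0 then _ else _) = _
    rw [if_neg (by rw [h3]; exact hb0), if_neg (by rw [h3]; exact hb1)]
  have hG2 : ∀ a b : E, (i a + i b * θ) ^ 2 + (i a + i b * θ) =
      i (a ^ 2 + a + b ^ 2 * X.δ) + i (b ^ 2 + b) * θ := by
    intro a b
    simp only [map_add, map_mul, map_pow, hδ]
    linear_combination (i a * i b * θ - i b ^ 2 * θ) * h2
  -- three types of elements
  have types : ∀ v : F, (∃ a, v = i a) ∨ (∃ α, v = i (X.C α) + θ) ∨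
      ∃ a b : E, b ≠ 0 ∧ b ≠ 1 ∧ v = i a + i b * θ := by
    intro v
    have hv := hcab v
    by_cases h0 : cb v = 0
    · left
      refine ⟨ca v, ?_⟩
      conv_lhs => rw [hv, h0, map_zero, zero_mul, add_zero]
    by_cases h1 : cb v = 1
    · right; left
      refine ⟨A (ca v), ?_⟩
      rw [hA]
      conv_lhs => rw [hv, h1, map_one, one_mul]
    · right; right
      exact ⟨ca v, cb v, h0, h1, hv⟩
  -- coordinates of the values
  have vK : ∀ a, g (i a) = i (h₀ a ^ 2) + i 0 * θ := fun a => by rw [gK, map_zero, zero_mul, add_zero]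
  have vG : ∀ a b, b ≠ 0 → b ≠ 1 → g (i a + i b * θ) =
      i (a ^ 2 + a + b ^ 2 * X.δ) + i (b ^ 2 + b) * θ := fun a b h0 h1 => by rw [gG a b h0 h1, hG2]
  have vW : ∀ α, g (i (X.C α) + θ) = _ := fun α => (gW α).trans (hw2 α)
  have hr : ∀ α, X.τ ((1 + (X.D α)⁻¹) ^ 2) = 1 := fun α => by rw [X.sq, X.τ_D]
  have hr0 : ∀ α, (1 + (X.D α)⁻¹) ^ 2 ≠ 0 := fun α h => by
    have := hr α; rw [h, map_zero] at this; exact absurd this (by decide)
  have hb0 : ∀ b : E, b ≠ 0 → b ≠ 1 → b ^ 2 + b ≠ 0 := by
    intro b h0 h1 h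
    have h3 : b * (b + 1) = 0 := by linear_combination h
    rcases mul_eq_zero.1 h3 with h4 | h4
    · exact h0 h4
    · have := cancel_add h4
      rw [zero_add] at this; exact h1 this
  have hτb : ∀ b : E, X.τ (b ^ 2 + b) = 0 := by
    intro b; rw [map_add, X.sq]; exact CharTwo.add_self_eq_zero _
  have hWfac : ∀ α, w α * (i (α + X.D α) + θ + 1) = (i (X.C α) + θ) * (i (α + X.D α) + θ) := by
    intro α
    rw [hΦ α]
    show (i α + θ) * (i (α + X.D α) + θ) / i (X.D α) * (i (α + X.D α) + θ + 1) = _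
    ring
  refine exists_adder_of_sq g ⟨fun v => ?_, fun v => ?_, fun u v huv => ?_, fun u v hu hv huv => ?_⟩
  · -- nonzero
    intro h
    rcases types v with ⟨a, rfl⟩ | ⟨α, rfl⟩ | ⟨a, b, h0, h1, rfl⟩
    · rw [gK] at h
      exact pow_ne_zero 2 (hh.ne a) (hiinj (by rw [h, map_zero]))
    · rw [vW] at h
      exact hr0 α (huniq _ _ 0 0 (by rw [h, map_zero, zero_mul, add_zero])).2
    · rw [vG a b h0 h1] at h
      exact hb0 b h0 h1 (huniq _ _ 0 0 (by rw [h, map_zero, zero_mul, add_zero])).2
  · -- periodic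
    rcases types v with ⟨a, rfl⟩ | ⟨α, rfl⟩ | ⟨a, b, h0, h1, rfl⟩
    · rw [show i a + 1 = i (a + 1) by rw [map_add, map_one], gK, gK, hh.per]
    · rw [show i (X.C α) + θ + 1 = i (X.C (α + X.D α)) + θ by rw [X.C_partner, map_add, map_one]; ring,
        gW, gW, hwsymm]
    · rw [show i a + i b * θ + 1 = i (a + 1) + i b * θ by rw [map_add, map_one]; ring,
        gG _ b h0 h1, gG _ b h0 h1, map_add, map_one]
      linear_combination (i a + i b * θ + 1) * h2
  · -- injective on pairs
    rcases types u with ⟨a, rfl⟩ | ⟨α, rfl⟩ | ⟨a, b, h0, h1, rfl⟩ <;>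
    rcases types v with ⟨a', rfl⟩ | ⟨α', rfl⟩ | ⟨a', b', h0', h1', rfl⟩
    · rw [gK, gK] at huv
      have h3 := sq_inj _ _ (hiinj huv)
      rcases hh.inj _ _ h3 with h4 | h4
      · left; rw [h4]
      · right; rw [h4, map_add, map_one]
    · rw [vK, vW] at huv
      exact absurd (huniq _ _ _ _ huv).2.symm (hr0 α')
    · rw [vK, vG _ _ h0' h1'] at huv
      exact absurd (huniq _ _ _ _ huv).2.symm (hb0 b' h0' h1')
    · rw [vK, vW] at huv
      exact absurd (huniq _ _ _ _ huv).2 (hr0 α)
    · rw [vW, vW] at huv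
      obtain ⟨h3, h4⟩ := huniq _ _ _ _ huv
      have h5 := sq_inj _ _ h4
      have h6 : X.D α = X.D α' := inv_injective (add_left_cancel h5)
      rw [h4] at h3
      have h7 := sq_inj _ _ (add_right_cancel h3)
      rw [← h6, div_left_inj' (X.D_ne α)] at h7
      have h8 := add_right_cancel h7
      have h9 : (α' + α) * (α' + (α + X.D α)) = 0 := by
        linear_combination -h8 + (α * α' + α * (α + X.D α)) * h2E
      rcases mul_eq_zero.1 h9 with h10 | h10
      · left
        have := cancel_add h10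
        rw [zero_add] at this; rw [this]
      · right
        have := cancel_add h10
        rw [zero_add] at this; rw [this, X.C_partner, map_add, map_one]; ring
    · rw [vW, vG _ _ h0' h1'] at huv
      have h3 := (huniq _ _ _ _ huv).2
      have h4 := hr α
      rw [h3, hτb] at h4
      exact absurd h4 (by decide)
    · rw [vK, vG _ _ h0 h1] at huv
      exact absurd (huniq _ _ _ _ huv).2 (hb0 b h0 h1)
    · rw [vW, vG _ _ h0 h1] at huv
      have h3 := (huniq _ _ _ _ huv).2
      have h4 := hr α'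
      rw [← h3, hτb] at h4
      exact absurd h4 (by decide)
    · rw [gG _ _ h0 h1, gG _ _ h0' h1'] at huv
      set x := i a + i b * θ
      set y := i a' + i b' * θ
      have h9 : (y + x) * (y + (x + 1)) = 0 := by
        linear_combination -huv + (x * y + x ^ 2 + x) * h2
      rcases mul_eq_zero.1 h9 with h10 | h10
      · left
        have := cancel_add h10
        rw [zero_add] at this; exact this
      · right
        have := cancel_add h10
        rw [zero_add] at this; exact this
  · -- columns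
    have hUne : ∀ α : E, i (X.C α) + θ ≠ 0 := fun α => hθne _
    have KW : ∀ a α : E, i (h₀ a ^ 2) * (i (X.C α) + θ) ^ 2 ≠ w α ^ 2 * (i a) ^ 2 := by
      intro a α h
      have h3 : (i (h₀ a) * (i (X.C α) + θ)) ^ 2 = (w α * i a) ^ 2 := by
        rw [mul_pow, mul_pow, ← map_pow, h]
      have h4 := sq_inj _ _ h3
      have h5 : i (h₀ a) * (i (α + X.D α) + θ + 1) = i a * (i (α + X.D α) + θ) := by
        apply mul_left_cancel₀ (hUne α)
        linear_combination (i (α + X.D α) + θ + 1) * h4 + i a * hWfac α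
      obtain ⟨h6, h7⟩ := huniq (h₀ a * (α + X.D α + 1)) (h₀ a) (a * (α + X.D α)) a (by
        simp only [map_mul, map_add, map_one] at h5 ⊢
        linear_combination h5)
      apply hh.ne a
      linear_combination h6 - (α + X.D α) * h7
    have KG : ∀ a a' b' : E, a ≠ 0 → b' ≠ 0 → b' ≠ 1 →
        i (h₀ a ^ 2) * (i a' + i b' * θ) ^ 2 ≠
          ((i a' + i b' * θ) ^ 2 + (i a' + i b' * θ)) * (i a) ^ 2 := by
      intro a a' b' ha h0' _ h
      have hv0 : i a' + i b' * θ ≠ 0 := by
        intro h3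
        exact h0' (huniq _ _ 0 0 (by rw [h3, map_zero, zero_mul, add_zero])).2
      have h5 : i (h₀ a ^ 2) * (i a' + i b' * θ) = (i a' + i b' * θ + 1) * (i a) ^ 2 := by
        apply mul_left_cancel₀ hv0
        linear_combination h
      obtain ⟨h6, h7⟩ := huniq (h₀ a ^ 2 * a') (h₀ a ^ 2 * b') ((a' + 1) * a ^ 2) (a ^ 2 * b') (by
        simp only [map_mul, map_add, map_one, map_pow] at h5 ⊢
        linear_combination h5)
      have h8 := mul_right_cancel₀ h0' h7
      rw [h8] at h6
      apply ha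
      apply pow_eq_zero_iff (two_ne_zero) |>.1
      linear_combination -h6
    have WG : ∀ α a' b' : E, b' ≠ 0 → b' ≠ 1 →
        w α ^ 2 * (i a' + i b' * θ) ^ 2 ≠
          ((i a' + i b' * θ) ^ 2 + (i a' + i b' * θ)) * (i (X.C α) + θ) ^ 2 := by
      intro α a' b' h0' h1' h
      have hv0 : i a' + i b' * θ ≠ 0 := by
        intro h3
        exact h0' (huniq _ _ 0 0 (by rw [h3, map_zero, zero_mul, add_zero])).2
      set v := i a' + i b' * θ with hv
      set t := i (α + X.D α) + θ with ht
      have hf := hWfac α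
      rw [← ht] at hf
      have h5 : t ^ 2 * v = (v + 1) * (t + 1) ^ 2 := by
        apply mul_left_cancel₀ (mul_ne_zero hv0 (pow_ne_zero 2 (hUne α)))
        have h6 : w α ^ 2 * (t + 1) ^ 2 = (i (X.C α) + θ) ^ 2 * t ^ 2 := by
          rw [← mul_pow, hf, mul_pow]
        linear_combination (t + 1) ^ 2 * h - v ^ 2 * h6
      have h7 : v = t ^ 2 + 1 := by
        linear_combination -h5 - (t ^ 2 + 1 + v * t + t) * h2
      have h8 : v = i ((α + X.D α) ^ 2 + X.δ + 1) + i 1 * θ := by
        rw [h7, ht]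
        simp only [map_add, map_pow, map_one, hδ]
        linear_combination (i α * θ + i (X.D α) * θ - θ) * h2
      exact h1' (huniq _ _ _ _ (hv.symm.trans h8)).2
    rcases types u with ⟨a, rfl⟩ | ⟨α, rfl⟩ | ⟨a, b, h0, h1, rfl⟩ <;>
    rcases types v with ⟨a', rfl⟩ | ⟨α', rfl⟩ | ⟨a', b', h0', h1', rfl⟩
    · rw [gK, gK] at huv
      have ha : a ≠ 0 := fun h => hu (by rw [h, map_zero])
      have ha' : a' ≠ 0 := fun h => hv (by rw [h, map_zero])
      have h3 : (h₀ a * a') ^ 2 = (h₀ a' * a) ^ 2 := by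
        apply hiinj
        simp only [map_mul, map_pow] at huv ⊢
        linear_combination huv
      rw [hh.col a a' ha ha' (sq_inj _ _ h3)]
    · rw [gK, gW] at huv
      exact absurd huv (KW a α')
    · rw [gK, gG _ _ h0' h1'] at huv
      exact absurd huv (KG a a' b' (fun h => hu (by rw [h, map_zero])) h0' h1')
    · rw [gK, gW] at huv
      exact absurd huv.symm (KW a' α)
    · rw [gW, gW] at huv
      have h3 : (w α * (i (X.C α') + θ)) ^ 2 = (w α' * (i (X.C α) + θ)) ^ 2 := by
        rw [mul_pow, mul_pow, huv]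
      have h4 := sq_inj _ _ h3
      have hf := hWfac α
      have hf' := hWfac α'
      set t := i (α + X.D α) + θ with ht
      set t' := i (α' + X.D α') + θ with ht'
      have h5 : t * (t' + 1) = t' * (t + 1) := by
        apply mul_left_cancel₀ (mul_ne_zero (hUne α) (hUne α'))
        linear_combination (t + 1) * (t' + 1) * h4 - (i (X.C α') + θ) * (t' + 1) * hf
          + (i (X.C α) + θ) * (t + 1) * hf'
      have h6 : t = t' := by linear_combination h5
      rw [ht, ht'] at h6
      have h7 := hiinj (add_right_cancel h6)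
      have h8 : X.D α = X.D α' := by rw [← hDD α, h7, hDD]
      rw [h8] at h7
      rw [add_right_cancel h7]
    · rw [gW, gG _ _ h0' h1'] at huv
      exact absurd huv (WG α a' b' h0' h1')
    · rw [gK, gG _ _ h0 h1] at huv
      exact absurd huv.symm (KG a' a b (fun h => hv (by rw [h, map_zero])) h0 h1)
    · rw [gW, gG _ _ h0 h1] at huv
      exact absurd huv.symm (WG α' a b h0 h1)
    · rw [gG _ _ h0 h1, gG _ _ h0' h1'] at huv
      set x := i a + i b * θ
      set y := i a' + i b' * θ
      apply mul_left_cancel₀ (mul_ne_zero hu hv)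
      linear_combination -huv

end Pool.Agent.K1H32.CB
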