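import Pool.Agent.K1H32.CB.Quad2

/-! # Existence of the data -/

set_option autoImplicit false

namespace Pool.Agent.K1H32.CB

open Finset

section
variable {E : Type} [Field E] [Fintype E] [CharP E 2]

lemma zmod2_or (a : ZMod 2) : a = 0 ∨ a = 1 := by revert a; decide

open Classical in
lemma card_T (τ : E →+ ZMod 2) (c : E) (hc : τ c = 1) :
    (univ.filter fun x => τ x = 1).card = (univ.filter fun x => τ x = 0).card ∧
    2 * (univ.filter fun x => τ x = 0).card = Fintype.card E := by
  have h1 : (univ.filter fun x => τ x = 1).card = (univ.filter fun x => τ x = 0).card := by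
    refine Finset.card_bij (fun x _ => x + c) ?_ ?_ ?_
    · intro x hx
      rw [mem_filter] at hx ⊢
      refine ⟨mem_univ _, ?_⟩
      rw [map_add, hx.2, hc]; decide
    · intro x _ y _ h
      exact add_right_cancel h
    · intro y hy
      rw [mem_filter] at hy
      refine ⟨y + c, ?_, ?_⟩
      · rw [mem_filter]
        refine ⟨mem_univ _, ?_⟩
        rw [map_add, hy.2, hc]; decide
      · show y + c + c = y
        rw [add_assoc, self_add, add_zero]
  refine ⟨h1, ?_⟩
  have h2 := Finset.card_filter_add_card_filter_not (s := (univ : Finset E)) (fun x => τ x = 0)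
  have h3 : (univ.filter fun x => ¬ τ x = 0) = (univ.filter fun x => τ x = 1) := by
    apply Finset.filter_congr
    intro x _
    rcases zmod2_or (τ x) with h | h <;> rw [h] <;> decide
  rw [h3, h1, Finset.card_univ] at h2
  omega

open Classical in
lemma card_Om : (univ.filter fun x : E => x ^ 2 + x + 1 = 0).card ≤ 2 := by
  by_cases h : ∃ w : E, w ^ 2 + w + 1 = 0
  · obtain ⟨w, hw⟩ := h
    have : (univ.filter fun x : E => x ^ 2 + x + 1 = 0) ⊆ {w, w + 1} := by
      intro x hx
      rw [mem_filter] at hx
      have h2 : (2 : E) = 0 := CharTwo.two_eq_zero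
      have h3 : (x - w) * (x - (w + 1)) = 0 := by
        linear_combination hx.2 + hw + (-x * w - x - 1) * h2
      rcases mul_eq_zero.1 h3 with h4 | h4
      · rw [sub_eq_zero.1 h4]; simp
      · rw [sub_eq_zero.1 h4]; simp
    exact (Finset.card_le_card this).trans Finset.card_le_two
  · push Not at h
    rw [Finset.filter_false_of_mem]
    · simp
    · intro x _; exact h x

lemma exists_d (τ : E →+ ZMod 2) (hsq : ∀ x, τ (x ^ 2) = τ x) (hs : ∃ c, τ c = 1)
    (hcard : 16 ≤ Fintype.card E) :
    ∃ d : E, d ≠ 0 ∧ d ^ 2 + d + 1 ≠ 0 ∧ τ (1 + d) = 1 ∧ τ (1 + d⁻¹) = 1 := by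
  classical
  obtain ⟨c, hc⟩ := hs
  obtain ⟨k1, k2⟩ := card_T τ c hc
  set T0 := univ.filter fun x => τ x = 0 with hT0
  set T1 := univ.filter fun x => τ x = 1 with hT1
  have m0 : ∀ x, x ∈ T0 ↔ τ x = 0 := fun x => by rw [hT0, mem_filter]; simp
  have m1 : ∀ x, x ∈ T1 ↔ τ x = 1 := fun x => by rw [hT1, mem_filter]; simp
  have h8 : 8 ≤ T0.card := by omega
  have pick : ∀ A : Finset E, A.card < 8 → ∃ x, τ x = 0 ∧ x ∉ A := by
    intro A hA
    obtain ⟨x, hx, hx'⟩ := Finset.exists_mem_notMem_of_card_lt_card (s := A) (t := T0) (by omega)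
    exact ⟨x, (m0 x).1 hx, hx'⟩
  by_contra hcon
  push Not at hcon
  rcases zmod2_or (τ 1) with h1 | h1
  · -- `τ 1 = 0`
    set Om := univ.filter fun x : E => x ^ 2 + x + 1 = 0 with hOm
    have mO : ∀ x, x ∈ Om ↔ x ^ 2 + x + 1 = 0 := fun x => by rw [hOm, mem_filter]; simp
    have kO : Om.card ≤ 2 := card_Om
    have hinv : ∀ x, τ x = 1 → x ^ 2 + x + 1 ≠ 0 → τ x⁻¹ = 0 := by
      intro x hx hO
      have hx0 : x ≠ 0 := by rintro rfl; rw [map_zero] at hx; exact absurd hx (by decide)
      have := hcon x hx0 hO (by rw [map_add, h1, hx]; decide)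
      rw [map_add, h1, zero_add] at this
      rcases zmod2_or (τ x⁻¹) with h | h
      · exact h
      · exact absurd h this
    have key : ∀ x, τ x = 0 → x ≠ 0 → x ≠ 1 → τ x⁻¹ = 1 := by
      intro x hx hx0 hx1
      by_contra hne
      have hne' : τ x⁻¹ = 0 := (zmod2_or _).resolve_right hne
      have hsub : ({0, 1, x} : Finset E) ⊆ T0 := by
        intro y hy
        simp only [mem_insert, mem_singleton] at hy
        rw [m0]
        rcases hy with rfl | rfl | rfl
        · exact map_zero τ
        · exact h1
        · exact hx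
      have hc3 : ({0, 1, x} : Finset E).card = 3 := by
        rw [Finset.card_insert_of_notMem, Finset.card_insert_of_notMem, Finset.card_singleton]
        · simp only [mem_singleton]; exact fun h => hx1 h.symm
        · simp only [mem_insert, mem_singleton]
          push Not
          exact ⟨zero_ne_one, fun h => hx0 h.symm⟩
      have hle : (T1 \ Om).card ≤ (T0 \ {0, 1, x}).card := by
        refine Finset.card_le_card_of_injOn (fun y => y⁻¹) ?_ ?_
        · intro y hy
          rw [Finset.mem_coe, mem_sdiff, m1, mO] at hy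
          rw [Finset.mem_coe, mem_sdiff, m0]
          refine ⟨hinv y hy.1 hy.2, ?_⟩
          simp only [mem_insert, mem_singleton]
          rintro (h | h | h)
          · have : y = 0 := inv_eq_zero.1 h
            rw [this, map_zero] at hy; exact absurd hy.1 (by decide)
          · have : y = 1 := inv_eq_one.1 h
            rw [this, h1] at hy; exact absurd hy.1 (by decide)
          · rw [← h, inv_inv, hy.1] at hne'; exact absurd hne' (by decide)
        · intro y _ z _ h
          exact inv_injective h
      have h5 : (T0 \ {0, 1, x}).card = T0.card - 3 := by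
        rw [Finset.card_sdiff_of_subset hsub, hc3]
      have h6 : T1.card ≤ (T1 \ Om).card + Om.card := by
        have := Finset.card_le_card (show T1 ⊆ (T1 \ Om) ∪ Om by
          intro y hy
          by_cases hyO : y ∈ Om
          · exact mem_union_right _ hyO
          · exact mem_union_left _ (mem_sdiff.2 ⟨hy, hyO⟩))
        exact this.trans (Finset.card_union_le _ _)
      omega
    obtain ⟨x, hx, hxA⟩ := pick ({0, 1} ∪ Om) (by
      have := Finset.card_union_le ({0, 1} : Finset E) Om
      have h2 : ({0, 1} : Finset E).card ≤ 2 := Finset.card_le_two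
      omega)
    simp only [mem_union, mem_insert, mem_singleton, mO] at hxA
    push Not at hxA
    obtain ⟨⟨hx0, hx1⟩, hxO⟩ := hxA
    have hx2 : x + 1 ≠ 0 := fun h => hx1 (by have := cancel_add h; rwa [zero_add] at this)
    have hy0 : x ^ 2 + x ≠ 0 := by
      have : x ^ 2 + x = x * (x + 1) := by ring
      rw [this]; exact mul_ne_zero hx0 hx2
    have hy1 : x ^ 2 + x ≠ 1 := by
      intro h; apply hxO; rw [h]; exact self_add 1
    have e1 := key (x ^ 2 + x) (by rw [map_add, hsq, hx, add_zero]) hy0 hy1
    have e2 := key x hx hx0 hx1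
    have e3 := key (x + 1) (by rw [map_add, hx, h1, add_zero]) hx2 (by
      intro h; apply hx0
      have h3 := cancel_add h
      rw [self_add] at h3; exact h3)
    have e4 : (x ^ 2 + x)⁻¹ = x⁻¹ + (x + 1)⁻¹ := by
      field_simp
      have h2 : (2 : E) = 0 := CharTwo.two_eq_zero
      linear_combination (-x) * h2
    rw [e4, map_add, e2, e3] at e1
    exact absurd e1 (by decide)
  · -- `τ 1 = 1`
    have hO : ∀ x : E, x ^ 2 + x + 1 ≠ 0 := by
      intro x h
      have := congrArg τ h
      rw [map_add, map_add, hsq, h1, map_zero] at this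
      rcases zmod2_or (τ x) with h | h <;> rw [h] at this <;> exact absurd this (by decide)
    have key : ∀ x, τ x = 0 → x ≠ 0 → τ x⁻¹ = 1 := by
      intro x hx hx0
      have := hcon x hx0 (hO x) (by rw [map_add, h1, hx]; decide)
      rcases zmod2_or (τ x⁻¹) with h | h
      · exfalso; apply this; rw [map_add, h1, h]; decide
      · exact h
    obtain ⟨s, hs, hs0⟩ := pick {0} (by simp)
    rw [mem_singleton] at hs0
    have key2 : ∀ x, τ x = 0 → x ≠ 0 → x ≠ s → τ (x ^ 2 * s⁻¹) = 1 := by
      intro x hx hx0 hxs
      have hxs' : x + s ≠ 0 := fun h => hxs (by have := cancel_add h; rwa [zero_add] at this)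
      have e1 := key x hx hx0
      have e2 := key (x + s) (by rw [map_add, hx, hs, add_zero]) hxs'
      have hw : x ^ 2 * s⁻¹ + x = x * (x + s) * s⁻¹ := by field_simp
      have hw0 : x ^ 2 * s⁻¹ + x ≠ 0 := by
        rw [hw]; exact mul_ne_zero (mul_ne_zero hx0 hxs') (inv_ne_zero hs0)
      have e3 : (x ^ 2 * s⁻¹ + x)⁻¹ = x⁻¹ + (x + s)⁻¹ := by
        rw [hw]
        field_simp
        have h2 : (2 : E) = 0 := CharTwo.two_eq_zero
        linear_combination (-x) * h2
      by_contra hne
      have hne' := (zmod2_or _).resolve_right hne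
      have e4 := key (x ^ 2 * s⁻¹ + x) (by rw [map_add, hne', hx, add_zero]) hw0
      rw [e3, map_add, e1, e2] at e4
      exact absurd e4 (by decide)
    obtain ⟨x, hx, hxA⟩ := pick {0, s} (by
      have : ({0, s} : Finset E).card ≤ 2 := Finset.card_le_two
      omega)
    simp only [mem_insert, mem_singleton] at hxA
    push Not at hxA
    obtain ⟨y, hy, hyA⟩ := pick {0, s, x, x + s} (by
      have : ({0, s, x, x + s} : Finset E).card ≤ 4 := Finset.card_le_four
      omega)
    simp only [mem_insert, mem_singleton] at hyA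
    push Not at hyA
    obtain ⟨hy0, hys, hyx, hyxs⟩ := hyA
    have e1 := key2 x hx hxA.1 hxA.2
    have e2 := key2 y hy hy0 hys
    have e3 := key2 (x + y) (by rw [map_add, hx, hy, add_zero])
      (fun h => hyx (by
        rw [add_comm] at h
        have := cancel_add h; rwa [zero_add] at this))
      (fun h => hyxs (by
        rw [add_comm] at h
        have := cancel_add h
        rw [this, add_comm]))
    rw [CharTwo.add_sq, add_mul, map_add, e1, e2] at e3
    exact absurd e3 (by decide)

end

end Pool.Agent.K1H32.CB
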