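import Pool.Agent.K1H32.CB.Quad3

/-! # All powers of two, except possibly 64 -/

set_option autoImplicit false

namespace Pool.Agent.K1H32.CB

section
variable (E : Type) [Field E] [Fintype E] [CharP E 2]

lemma exists_data (hcard : 16 ≤ Fintype.card E) : Nonempty (Data E) := by
  haveI : Fact (Nat.Prime 2) := ⟨Nat.prime_two⟩
  letI : Algebra (ZMod 2) E := ZMod.algebra E 2
  obtain ⟨c, hc⟩ := Algebra.trace_surjective (ZMod 2) E 1
  set τ : E →+ ZMod 2 := (Algebra.trace (ZMod 2) E).toAddMonoidHom with hτ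
  have hτ' : ∀ x, τ x = Algebra.trace (ZMod 2) E x := fun x => rfl
  have hsq : ∀ x, τ (x ^ 2) = τ x := by
    intro x
    have h := Algebra.trace_eq_of_algEquiv (FiniteField.frobeniusAlgEquivOfAlgebraic (ZMod 2) E) x
    rw [FiniteField.coe_frobeniusAlgEquivOfAlgebraic, ZMod.card] at h
    rw [hτ', hτ']; exact h
  have hc' : τ c = 1 := hc
  obtain ⟨d, d0, dO, hd, hd'⟩ := exists_d τ hsq ⟨c, hc'⟩ hcard
  have d1 : d ≠ 1 := by
    rintro rfl; rw [self_add, map_zero] at hd; exact zero_ne_one hd
  have hW : (1 : E) ∉ Submodule.span (ZMod 2) ({d, d⁻¹} : Set E) := by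
    intro h
    obtain ⟨a, b, hab⟩ := Submodule.mem_span_pair.1 h
    rcases zmod2_or a with rfl | rfl <;> rcases zmod2_or b with rfl | rfl
    · rw [zero_smul, zero_smul, add_zero] at hab; exact zero_ne_one hab
    · rw [zero_smul, one_smul, zero_add] at hab; exact d1 (inv_eq_one.1 hab)
    · rw [zero_smul, one_smul, add_zero] at hab; exact d1 hab
    · rw [one_smul, one_smul] at hab
      apply dO
      have h2 : (2 : E) = 0 := CharTwo.two_eq_zero
      have h3 : d * d⁻¹ = 1 := mul_inv_cancel₀ d0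
      linear_combination d * hab - h3 + d * h2
  obtain ⟨f, hf, hfW⟩ := Submodule.exists_le_ker_of_notMem hW
  have hk : ∀ x ∈ ({d, d⁻¹} : Set E), f x = 0 := fun x hx =>
    LinearMap.mem_ker.1 (hfW (Submodule.subset_span hx))
  exact ⟨{
    τ := τ
    sq := hsq
    δ := c
    hδ := hc'
    d := d
    d0 := d0
    d1 := d1
    hd := hd
    hd' := hd'
    l := f.toAddMonoidHom
    l1 := (zmod2_or _).resolve_left hf
    ld := hk d (by simp)
    ld' := hk d⁻¹ (by simp) }⟩

open Polynomial in
theorem exists_ext (δ : E) (hδ : ∀ x : E, x ^ 2 + x ≠ δ) :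
    ∃ (F : Type) (_ : Field F) (_ : Fintype F) (_ : CharP F 2) (_ : Algebra E F) (θ : F),
      θ ^ 2 + θ = algebraMap E F δ ∧
      (∀ v : F, ∃ a b : E, v = algebraMap E F a + algebraMap E F b * θ) ∧
      (∀ a b a' b' : E, algebraMap E F a + algebraMap E F b * θ =
        algebraMap E F a' + algebraMap E F b' * θ → a = a' ∧ b = b') ∧
      Fintype.card F = Fintype.card E ^ 2 := by
  classical
  set p : Polynomial E := X ^ 2 + X + C δ with hp
  have hnd : p.natDegree = 2 := by rw [hp]; compute_degree!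
  have hmon : p.Monic := by rw [hp]; monicity!
  have hirr : Irreducible p := by
    apply Polynomial.irreducible_of_degree_le_three_of_not_isRoot
    · rw [hnd]; decide
    · intro x hx
      rw [Polynomial.IsRoot, hp] at hx
      simp only [eval_add, eval_pow, eval_X, eval_C] at hx
      have := cancel_add hx
      rw [zero_add] at this
      exact hδ x this
  haveI : Fact (Irreducible p) := ⟨hirr⟩
  haveI hch : CharP (AdjoinRoot p) 2 :=
    charP_of_injective_algebraMap (algebraMap E (AdjoinRoot p)).injective 2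
  set θ : AdjoinRoot p := AdjoinRoot.root p with hθ
  have hof : ∀ a : E, algebraMap E (AdjoinRoot p) a = AdjoinRoot.mk p (C a) := fun a => by
    rw [AdjoinRoot.mk_C]; rfl
  have hroot : θ = AdjoinRoot.mk p X := AdjoinRoot.mk_X.symm
  have h1 : θ ^ 2 + θ = algebraMap E (AdjoinRoot p) δ := by
    have h2 : AdjoinRoot.mk p (X ^ 2 + X + C δ) = 0 := AdjoinRoot.mk_self
    rw [map_add, map_add, map_pow, ← hroot, ← hof] at h2
    have := cancel_add h2
    rwa [zero_add] at this
  have hinj : Function.Injective (algebraMap E (AdjoinRoot p)) := (algebraMap E (AdjoinRoot p)).injective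
  have hrep : ∀ v : AdjoinRoot p, ∃ a b : E, v = algebraMap E (AdjoinRoot p) a +
      algebraMap E (AdjoinRoot p) b * θ := by
    intro v
    obtain ⟨q, rfl⟩ := AdjoinRoot.mk_surjective v
    have h3 : AdjoinRoot.mk p q = AdjoinRoot.mk p (q %ₘ p) := by
      conv_lhs => rw [← Polynomial.modByMonic_add_div q p]
      rw [map_add, map_mul, AdjoinRoot.mk_self, zero_mul, add_zero]
    have h4 : (q %ₘ p).natDegree ≤ 1 := by
      have := Polynomial.natDegree_modByMonic_lt q hmon (by
        intro h; rw [h] at hnd; simp at hnd)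
      omega
    obtain ⟨b, a, hab⟩ := Polynomial.exists_eq_X_add_C_of_natDegree_le_one h4
    refine ⟨a, b, ?_⟩
    rw [h3, hab, map_add, map_mul, ← hof, ← hof, ← hroot, add_comm]
  have huniq : ∀ a b a' b' : E, algebraMap E (AdjoinRoot p) a + algebraMap E (AdjoinRoot p) b * θ =
      algebraMap E (AdjoinRoot p) a' + algebraMap E (AdjoinRoot p) b' * θ → a = a' ∧ b = b' := by
    intro a b a' b' h
    by_cases hb : b = b'
    · subst hb
      exact ⟨hinj (add_right_cancel h), rfl⟩
    · exfalso
      have hb' : b - b' ≠ 0 := sub_ne_zero.2 hb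
      have h5 : θ = algebraMap E (AdjoinRoot p) ((a' - a) / (b - b')) := by
        rw [map_div₀, eq_div_iff (by
          intro h0
          exact hb' (hinj (by rw [h0, map_zero]))), map_sub, map_sub]
        linear_combination h
      have h6 := h1
      rw [h5, ← map_pow, ← map_add] at h6
      exact hδ _ (hinj h6)
  have hbij : Function.Bijective (fun z : E × E => algebraMap E (AdjoinRoot p) z.1 +
      algebraMap E (AdjoinRoot p) z.2 * θ) := by
    constructor
    · rintro ⟨a, b⟩ ⟨a', b'⟩ h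
      obtain ⟨h7, h8⟩ := huniq a b a' b' h
      rw [h7, h8]
    · intro v
      obtain ⟨a, b, hab⟩ := hrep v
      exact ⟨(a, b), hab.symm⟩
  letI : Fintype (AdjoinRoot p) := Fintype.ofBijective _ hbij
  refine ⟨AdjoinRoot p, inferInstance, inferInstance, hch, inferInstance, θ, h1, hrep, huniq, ?_⟩
  rw [← Fintype.card_of_bijective hbij, Fintype.card_prod, sq]

end

/-- A field with `2 ^ k` elements carries an adder. -/
def P (k : ℕ) : Prop :=
  ∃ (F : Type) (_ : Field F) (_ : Fintype F) (_ : CharP F 2),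
    Fintype.card F = 2 ^ k ∧ ∃ h : F → F, IsAdder h

theorem P_odd (k : ℕ) (hk : Odd k) : P k := by
  haveI : Fact (Nat.Prime 2) := ⟨Nat.prime_two⟩
  have hk0 : k ≠ 0 := by rintro rfl; exact absurd hk (by decide)
  haveI : Fintype (GaloisField 2 k) := Fintype.ofFinite _
  exact ⟨GaloisField 2 k, inferInstance, inferInstance, inferInstance, by
    rw [← Nat.card_eq_fintype_card, GaloisField.card 2 k hk0], isAdder_two k hk (pow_card k hk0)⟩

theorem P_four (m : ℕ) (hm : Odd m) : P (4 * m) := by
  haveI : Fact (Nat.Prime 2) := ⟨Nat.prime_two⟩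
  have hk0 : 4 * m ≠ 0 := by
    rintro h
    have : m = 0 := by omega
    subst this; exact absurd hm (by decide)
  haveI : Fintype (GaloisField 2 (4 * m)) := Fintype.ofFinite _
  obtain ⟨α, h1, h2⟩ := exists_alpha (GaloisField 2 (4 * m)) (by
    rw [← Nat.card_eq_fintype_card, GaloisField.card 2 _ hk0, pow_mul]
    have := Nat.sub_dvd_pow_sub_pow (2 ^ 4) 1 m
    simpa using this)
  refine ⟨GaloisField 2 (4 * m), inferInstance, inferInstance, inferInstance, by
    rw [← Nat.card_eq_fintype_card, GaloisField.card 2 _ hk0],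
    isAdder_sixteen α h1 h2 m hm fun v => ?_⟩
  have := pow_card (4 * m) hk0 v
  rwa [pow_mul] at this

theorem P_double (m : ℕ) (hm : 4 ≤ m) (h : P m) : P (2 * m) := by
  obtain ⟨E, i1, i2, i3, hcard, h₀, hh⟩ := h
  obtain ⟨X⟩ := exists_data E (by
    rw [hcard]
    calc 16 = 2 ^ 4 := by norm_num
      _ ≤ 2 ^ m := Nat.pow_le_pow_right (by norm_num) hm)
  obtain ⟨F, j1, j2, j3, j4, θ, hθ, hrep, huniq, hF⟩ := exists_ext E X.δ X.no_root
  exact ⟨F, j1, j2, j3, by rw [hF, hcard, ← pow_mul, mul_comm],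
    quad X h₀ hh θ hθ hrep huniq⟩

theorem P_all (k : ℕ) : 3 ≤ k → k ≠ 6 → P k := by
  induction k using Nat.strong_induction_on with
  | _ k ih =>
    intro h3 h6
    rcases Nat.even_or_odd' k with ⟨m, rfl | rfl⟩
    · by_cases h2 : m = 2
      · subst h2; exact P_four 1 (by decide)
      · by_cases h6' : m = 6
        · subst h6'; exact P_four 3 (by decide)
        · exact P_double m (by omega) (ih m (by omega) (by omega) h6')
    · exact P_odd _ ⟨m, rfl⟩

theorem cbhr_of_P (k : ℕ) (h : P k) : ∃ R S, IsCBHR (2 ^ k) R S := by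
  obtain ⟨F, i1, i2, i3, hcard, h₀, hh⟩ := h
  haveI : Fact (Nat.Prime 2) := ⟨Nat.prime_two⟩
  letI : Algebra (ZMod 2) F := ZMod.algebra F 2
  obtain ⟨c, hc⟩ := Algebra.trace_surjective (ZMod 2) F 1
  classical
  exact exists_cbhr (Algebra.trace (ZMod 2) F).toAddMonoidHom c hc h₀ hh (2 ^ k) hcard

end Pool.Agent.K1H32.CB
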