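import Mathlib

/-! # Complete balanced Howell rotations from adders in fields of characteristic two -/

set_option autoImplicit false

namespace Pool.Agent.K1H32.CB

open Finset Matrix

/-- The `n × n` matrix obtained from `S` by appending a row of ones. -/
def addOnes (n : ℕ) (S : Fin (n - 1) → Fin n → ℤ) : Matrix (Fin (n - 1) ⊕ Unit) (Fin n) ℤ :=
  Matrix.of (Sum.elim S fun _ _ => 1)

/-- `(R, S)` is a complete balanced Howell rotation on `n` partnerships (the columns) and `n - 1`
boards (the rows); the round numbers are the elements of `Fin (n - 1)`. -/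
def IsCBHR (n : ℕ) (R : Fin (n - 1) → Fin n → Fin (n - 1)) (S : Fin (n - 1) → Fin n → ℤ) : Prop :=
  (∀ i j, S i j = 1 ∨ S i j = -1) ∧
  addOnes n S * (addOnes n S)ᵀ = (n : ℤ) • (1 : Matrix (Fin (n - 1) ⊕ Unit) (Fin (n - 1) ⊕ Unit) ℤ) ∧
  (∀ j, Function.Bijective fun i => R i j) ∧
  (∀ j k, j ≠ k → ∃ i, (∀ i', R i' j = R i' k ↔ i' = i) ∧ S i j = - S i k)

variable {F : Type} [Field F]

/-- Adders for the starter `{u, u + 1}` in the multiplicative group of a field of characteristic 2. -/
structure IsAdder (h : F → F) : Prop where
  ne : ∀ u, h u ≠ 0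
  per : ∀ u, h (u + 1) = h u
  inj : ∀ u v, h u = h v → v = u ∨ v = u + 1
  col : ∀ u v, u ≠ 0 → v ≠ 0 → h u * v = h v * u → u = v

/-- the sign -/
def sgn (a : ZMod 2) : ℤ := if a = 0 then 1 else -1

lemma sgn_add (a b : ZMod 2) : sgn (a + b) = sgn a * sgn b := by
  revert a b; decide

lemma sgn_zero : sgn 0 = 1 := by decide

lemma sgn_one : sgn 1 = -1 := by decide

lemma sgn_or (a : ZMod 2) : sgn a = 1 ∨ sgn a = -1 := by
  revert a; decide

section
variable [Fintype F] [CharP F 2]

omit [Fintype F] in
lemma self_add (x : F) : x + x = 0 := CharTwo.add_self_eq_zero x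

lemma sum_sgn (t : F →+ ZMod 2) (y : F) (hy : t y = 1) : ∑ x : F, sgn (t x) = 0 := by
  have h1 : ∑ x : F, sgn (t x) = ∑ x : F, sgn (t (x + y)) :=
    (Fintype.sum_equiv (Equiv.addRight y) _ _ fun x => rfl).symm
  have h2 : ∑ x : F, sgn (t (x + y)) = - ∑ x : F, sgn (t x) := by
    rw [← Finset.sum_neg_distrib]
    refine Finset.sum_congr rfl fun x _ => ?_
    rw [map_add, sgn_add, hy, sgn_one]; ring
  linarith [h1.trans h2]

theorem exists_cbhr (t : F →+ ZMod 2) (c : F) (hc : t c = 1) (h : F → F) (hh : IsAdder h) (n : ℕ)
    (hn : Fintype.card F = n) : ∃ R S, IsCBHR n R S := by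
  classical
  subst hn
  -- enumeration of the partnerships and of the boards
  let e : Fin (Fintype.card F) ≃ F := (Fintype.equivFin F).symm
  have hcu : Fintype.card Fˣ = Fintype.card F - 1 := Fintype.card_units F
  let b : Fin (Fintype.card F - 1) ≃ Fˣ := (finCongr hcu.symm).trans (Fintype.equivFin Fˣ).symm
  let ρ : Fˣ → F → Fˣ := fun d x => d * Units.mk0 (h (x / d)) (hh.ne _)
  have hρ : ∀ d x, ((ρ d x : Fˣ) : F) = d * h (x / d) := fun d x => by simp [ρ]
  refine ⟨fun i j => b.symm (ρ (b i) (e j)), fun i j => sgn (t (c * e j / (b i : F))), ?_, ?_, ?_, ?_⟩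
  · intro i j; exact sgn_or _
  · -- Hadamard
    have key : ∀ a : F, a ≠ 0 → ∑ j : Fin (Fintype.card F), sgn (t (a * e j)) = 0 := by
      intro a ha
      have h1 : ∑ j : Fin (Fintype.card F), sgn (t (a * e j)) = ∑ x : F, sgn (t (a * x)) :=
        Fintype.sum_equiv e _ _ fun j => rfl
      rw [h1]
      exact sum_sgn (t.comp (AddMonoidHom.mulLeft a)) (c / a) (by simp [mul_div_cancel₀ _ ha, hc])
    ext x y
    rw [Matrix.mul_apply, Matrix.smul_apply]
    unfold addOnes
    rcases x with i | _ <;> rcases y with i' | _
    · simp only [Matrix.of_apply, Sum.elim_inl, Matrix.transpose_apply]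
      by_cases hii : i = i'
      · subst hii
        rw [Matrix.one_apply_eq]
        have : ∀ j : Fin (Fintype.card F), sgn (t (c * e j / (b i : F))) * sgn (t (c * e j / (b i : F))) = 1 := by
          intro j
          rcases sgn_or (t (c * e j / (b i : F))) with h0 | h0 <;> rw [h0] <;> norm_num
        simp [this]
      · rw [Matrix.one_apply_ne (by simpa using hii)]
        have hbb : b i ≠ b i' := fun h0 => hii (b.injective h0)
        have hne : (b i : F)⁻¹ + (b i' : F)⁻¹ ≠ 0 := by
          intro h0
          apply hbb
          have h2 : (b i : F)⁻¹ = (b i' : F)⁻¹ := by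
            have := self_add ((b i' : F)⁻¹)
            calc (b i : F)⁻¹ = (b i : F)⁻¹ + (b i' : F)⁻¹ + (b i' : F)⁻¹ := by rw [add_assoc, this, add_zero]
              _ = _ := by rw [h0, zero_add]
          exact Units.ext (inv_injective h2)
        have hcne : c ≠ 0 := by rintro rfl; simp at hc
        have := key (c * ((b i : F)⁻¹ + (b i' : F)⁻¹)) (mul_ne_zero hcne hne)
        have h3 : ∀ j : Fin (Fintype.card F), sgn (t (c * e j / (b i : F))) * sgn (t (c * e j / (b i' : F))) =
            sgn (t (c * ((b i : F)⁻¹ + (b i' : F)⁻¹) * e j)) := by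
          intro j
          rw [← sgn_add, ← map_add]
          congr 2
          rw [div_eq_mul_inv, div_eq_mul_inv]; ring
        simp only [h3, this]
        simp
    · simp only [Matrix.of_apply, Sum.elim_inl, Matrix.transpose_apply, Sum.elim_inr, mul_one]
      rw [Matrix.one_apply_ne (by simp)]
      have hcne : c ≠ 0 := by rintro rfl; simp at hc
      have := key (c * (b i : F)⁻¹) (mul_ne_zero hcne (inv_ne_zero (b i).ne_zero))
      have h3 : ∀ j : Fin (Fintype.card F), sgn (t (c * e j / (b i : F))) =
          sgn (t (c * (b i : F)⁻¹ * e j)) := by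
        intro j; congr 2; rw [div_eq_mul_inv]; ring
      simp only [h3, this]
      simp
    · simp only [Matrix.of_apply, Sum.elim_inl, Matrix.transpose_apply, Sum.elim_inr, one_mul]
      rw [Matrix.one_apply_ne (by simp)]
      have hcne : c ≠ 0 := by rintro rfl; simp at hc
      have := key (c * (b i' : F)⁻¹) (mul_ne_zero hcne (inv_ne_zero (b i').ne_zero))
      have h3 : ∀ j : Fin (Fintype.card F), sgn (t (c * e j / (b i' : F))) =
          sgn (t (c * (b i' : F)⁻¹ * e j)) := by
        intro j; congr 2; rw [div_eq_mul_inv]; ring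
      simp only [h3, this]
      simp
    · simp
  · -- each column contains every round once
    intro j
    rw [Function.Bijective, and_iff_left_of_imp (fun h0 => Finite.surjective_of_injective h0)]
    intro i i' hii
    simp only [EmbeddingLike.apply_eq_iff_eq] at hii
    have h1 : (b i : F) * h (e j / b i) = b i' * h (e j / b i') := by
      rw [← hρ, ← hρ, hii]
    apply b.injective
    apply Units.ext
    by_cases hx : e j = 0
    · rw [hx, zero_div, zero_div] at h1
      exact mul_right_cancel₀ (hh.ne 0) h1
    · have hi := (b i).ne_zero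
      have hi' := (b i').ne_zero
      have := hh.col (e j / b i) (e j / b i') (div_ne_zero hx hi) (div_ne_zero hx hi') (by
        rw [mul_div_assoc', mul_div_assoc', div_eq_div_iff hi' hi]
        calc h (e j / ↑(b i)) * e j * ↑(b i) = (b i : F) * h (e j / b i) * e j := by ring
          _ = (b i' : F) * h (e j / b i') * e j := by rw [h1]
          _ = _ := by ring)
      rw [div_eq_div_iff hi hi'] at this
      exact (mul_left_cancel₀ hx this).symm
  · intro j k hjk
    have hne : e j + e k ≠ 0 := by
      intro h0
      apply hjk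
      apply e.injective
      calc e j = e j + e k + e k := by rw [add_assoc, self_add, add_zero]
        _ = e k := by rw [h0, zero_add]
    have hbi : (b (b.symm (Units.mk0 _ hne)) : F) = e j + e k := by simp
    refine ⟨b.symm (Units.mk0 _ hne), fun i' => ?_, ?_⟩
    · constructor
      · intro h0
        simp only [EmbeddingLike.apply_eq_iff_eq] at h0
        have h1 : (b i' : F) * h (e j / b i') = b i' * h (e k / b i') := by
          rw [← hρ, ← hρ, h0]
        have h2 := mul_left_cancel₀ (b i').ne_zero h1
        rw [Equiv.eq_symm_apply]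
        apply Units.ext
        rw [Units.val_mk0]
        rcases hh.inj _ _ h2 with h3 | h3
        · exfalso
          apply hjk
          apply e.injective
          rw [div_eq_div_iff (b i').ne_zero (b i').ne_zero] at h3
          exact (mul_right_cancel₀ (b i').ne_zero h3).symm
        · rw [div_eq_iff (b i').ne_zero, add_mul, div_mul_cancel₀ _ (b i').ne_zero, one_mul] at h3
          rw [h3, ← add_assoc, self_add, zero_add]
      · intro h0
        subst h0
        simp only [EmbeddingLike.apply_eq_iff_eq]
        apply Units.ext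
        rw [hρ, hρ]
        congr 1
        rw [hbi]
        have : e k / (e j + e k) = e j / (e j + e k) + 1 := by
          rw [eq_comm, div_add_one hne, ← add_assoc, self_add, zero_add]
        rw [this, hh.per]
    · show sgn (t (c * e j / (b (b.symm (Units.mk0 _ hne)) : F))) =
        - sgn (t (c * e k / (b (b.symm (Units.mk0 _ hne)) : F)))
      rw [hbi]
      have : c * e j / (e j + e k) = c * e k / (e j + e k) + c := by
        rw [eq_comm, div_add' _ _ _ hne]
        congr 1
        have h4 := self_add (c * e k)
        calc c * e k + c * (e j + e k) = c * e j + (c * e k + c * e k) := by ring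
          _ = _ := by rw [h4, add_zero]
      rw [this, map_add, sgn_add, hc, sgn_one]; ring

end

end Pool.Agent.K1H32.CB
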